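import Pool.Agent.Helper53_LLG.Mach

/-!
# CG: module MACH9 (killed edges and cut edges separately)
-/

set_option autoImplicit false

namespace Pool.Agent.LLG

open SimpleGraph Pool.Agent.LAG

/-- MACH9: the graphs of maximum degree four are split into linear forests, up to the killed edges
`K` and the cut edges `C`. -/
def Mach9Stmt : Prop := ∀ (V : Type) [Fintype V] (A R : SimpleGraph V) (Q Z : Set V)
    (k T q hH n a ℓ Tm L Nc : ℕ) (H : Fin T → SimpleGraph V), NumM k T hH n a ℓ Tm L Nc →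
    Stt A R Q k 4100 q →
    (∀ t, H t ≤ R) → (∀ t t', t ≠ t' → Disjoint (H t) (H t')) →
    (∀ t v, ((H t).neighborSet v).ncard ≤ 4) →
    (∀ t, Big (H t) (2 * hH)) → (∀ t z, IsP (H t) z n → ¬ Heavy A Q z n) →
    (∀ x ∈ Z, ∀ y ∈ Z, x ≠ y → ¬ near A 2000 x y) → (∀ x ∈ Z, ∀ y ∈ Q, ¬ near A 90 x y) →
    ∃ (F : Fin (2 * T) → SimpleGraph V) (K C : SimpleGraph V),
      (∀ i, F i ≤ ⨆ t, H t) ∧ (∀ i, (F i).IsAcyclic ∧ ∀ v, ((F i).neighborSet v).ncard ≤ 2) ∧
      K ≤ ⨆ t, H t ∧ C ≤ ⨆ t, H t ∧ (⨆ i, F i) ⊔ (K ⊔ C) = ⨆ t, H t ∧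
      (∀ u v, (K ⊔ C).Adj u v → (∀ x ∈ Q, ¬ near A 88 u x) ∧ ∀ x ∈ Z, ¬ near A 90 u x) ∧
      (∀ u v u' v', K.Adj u v → K.Adj u' v' → near A 1990 u u' → s(u, v) = s(u', v')) ∧
      (∀ u v u' v', C.Adj u v → C.Adj u' v' → near A 1990 u u' → s(u, v) = s(u', v')) ∧
      ∀ u v u' v', K.Adj u v → C.Adj u' v' → ¬ near A 90 u u'

namespace H53

/-- MACH9 -/
theorem mach9 : Mach9Stmt := by
  intro V _ A R Q Z k T q hH n a ℓ Tm L Nc H hnum hst hHR hHd hH4 hHb hHv hZ hZQ
  classical
  obtain ⟨hI, hT1, hn2, haT, hTm, hNc, hl⟩ := hnum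
  have hHA : ∀ t, H t ≤ A := fun t => (hHR t).trans hst.le
  have hNc0 : 1 ≤ Nc := by
    refine le_trans ?_ hNc
    exact Nat.mul_pos (Nat.mul_pos (by norm_num) hT1) (Nat.pow_pos (Nat.succ_pos _))
  obtain ⟨F, Kc, K, C, h1, h2, h3, h4, h5, h6, h7, h8, h9, h10⟩ :=
    LAG.H53.rinnerAll V A T (2 * k + 2) a hH ℓ Tm L n Nc H Q Z (hst.big.mono (by omega))
      (deg_A hst) hHA hHd hH4 hHb (fun t z hz => by
        have := hHv t z hz
        unfold Heavy Zone at this
        have h : 8 * {t : ℕ | t ≤ n ∧ ∃ x ∈ Q, near A 90 (z t) x}.ncard < n := not_le.1 this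
        omega) hZ hI haT hTm (by
        rw [← mul_assoc]
        exact hNc) hNc0 hl
  let e : Fin (2 * T) ≃ Fin T × Bool := (Fintype.equivFinOfCardEq (by
    rw [Fintype.card_prod, Fintype.card_fin, Fintype.card_bool]; ring)).symm
  have hKle : K ≤ ⨆ t, H t := by
    rw [← h4]
    exact le_sup_left.trans le_sup_right
  have hCle : C ≤ ⨆ t, H t := by
    rw [← h4]
    exact le_sup_right.trans le_sup_right
  have hHA' : (⨆ t, H t) ≤ A := iSup_le hHA
  have hKA := hKle.trans hHA'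
  -- every killed edge has a killer
  have kill : ∀ u v, K.Adj u v → ∃ x y, s(u, v) = s(x, y) ∧ x ∈ Kc ∧ K.Adj x y ∧
      near A 1 u x := by
    intro u v huv
    rcases h7 u v huv with hu | hv
    · exact ⟨u, v, rfl, hu, huv, near_refl _ _⟩
    · exact ⟨v, u, Sym2.eq_swap, hv, huv.symm, near_adj (hKA huv)⟩
  refine ⟨fun j => F (e j).1 (e j).2, K, C, fun j => (h1 _ _).1.trans (le_iSup H _),
    fun j => (h1 _ _).2, hKle, hCle, ?_, ?_, ?_, ?_, ?_⟩
  · have : (⨆ j, F (e j).1 (e j).2) = ⨆ i, (F i false ⊔ F i true) := by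
      apply le_antisymm
      · refine iSup_le fun j => ?_
        refine le_trans ?_ (le_iSup _ (e j).1)
        rcases Bool.eq_false_or_eq_true (e j).2 with hb | hb
        · rw [hb]; exact le_sup_right
        · rw [hb]; exact le_sup_left
      · refine iSup_le fun i => sup_le ?_ ?_
        · have := le_iSup (fun j => F (e j).1 (e j).2) (e.symm (i, false))
          simpa using this
        · have := le_iSup (fun j => F (e j).1 (e j).2) (e.symm (i, true))
          simpa using this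
    rw [this, h4]
  · rintro u v (huv | huv)
    · obtain ⟨x, y, hxy, hx, hadj, hnx⟩ := kill u v huv
      refine ⟨fun z hz hn => (h6 x hx).1 z hz (near_mono (by norm_num)
        (near_trans (near_symm hnx) hn)), fun z hz hn => (h6 x hx).2 z hz
        (near_mono (by norm_num) (near_trans (near_symm hnx) hn))⟩
    · refine ⟨fun z hz hn => (h9 u v huv).1 z hz (near_mono (by norm_num) hn),
        fun z hz hn => (h9 u v huv).2 z (Or.inl hz) (near_mono (by norm_num) hn)⟩
  · intro u v u' v' huv huv' hn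
    obtain ⟨x, y, hxy, hx, hadj, hnx⟩ := kill u v huv
    obtain ⟨x', y', hxy', hx', hadj', hnx'⟩ := kill u' v' huv'
    have hxx : x = x' := by
      by_contra hne
      exact h5 x hx x' hx' hne (near_mono (by norm_num)
        (near_trans (near_trans (near_symm hnx) hn) hnx'))
    subst hxx
    rw [hxy, hxy', h8 x y y' hx hadj hadj']
  · intro u v u' v' huv huv' hn
    exact h10 u v u' v' huv huv' (near_mono (by norm_num) hn)
  · intro u v u' v' huv huv' hn
    obtain ⟨x, y, hxy, hx, hadj, hnx⟩ := kill u v huv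
    exact (h9 u' v' huv').2 x (Or.inr hx) (near_mono (by norm_num)
      (near_trans (near_symm hn) hnx))

end H53

end Pool.Agent.LLG
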