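import Pool.Agent.Helper9_CG.Stmt
import Pool.Agent.Helper53_CG.Mach9
import Pool.Agent.Helper73_LLG.Step

/-!
# CG, module STEPC: assembly of one round (after `Pool.Agent.LLG.H73.step`)
-/

set_option autoImplicit false

namespace Pool.Agent.CG.H53

open SimpleGraph Pool.Agent.LAG Pool.Agent.LLG Pool.Agent.CG

/-- The ends of the edges of a graph. -/
def ends {V : Type} (N : SimpleGraph V) : Set V := {u | ∃ w, N.Adj u w}

/-- The touched vertices of the next state. -/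
def newQ {V : Type} (Q : Fin 4 → Set V) (J K C : SimpleGraph V) : Fin 4 → Set V :=
  ![⋃ i, Q i, ends J, ends K, ends C]

theorem newQ_cases {V : Type} (Q : Fin 4 → Set V) (J K C : SimpleGraph V) {i : Fin 4} {x : V}
    (h : x ∈ newQ Q J K C i) :
    (i = 0 ∧ x ∈ ⋃ i, Q i) ∨ (i = 1 ∧ x ∈ ends J) ∨ (i = 2 ∧ x ∈ ends K) ∨
      (i = 3 ∧ x ∈ ends C) := by
  fin_cases i
  · exact Or.inl ⟨rfl, h⟩
  · exact Or.inr (Or.inl ⟨rfl, h⟩)
  · exact Or.inr (Or.inr (Or.inl ⟨rfl, h⟩))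
  · exact Or.inr (Or.inr (Or.inr ⟨rfl, h⟩))

/-- STEPC: one round. -/
theorem stepc (hMatch : MatchcStmt) (hJed : JedStmt) (hMach : Mach9Stmt) (hCand : CandStmt)
    (hBal : BalcStmt) : StepcStmt := by
  classical
  intro k T g hR hGood V _ A R Q hS hreg
  obtain ⟨hTk, s, c, j, b, d, w, h, N0, n, hH, a, ℓ, Tm, L, Nc, η, M, hg, hh, hd1, h4T, hje,
    hHN, hs0, hNC, hNE, hNM⟩ := hR
  have : NeZero s := ⟨hs0⟩
  have hSt : Stt A R (⋃ i, Q i) k g 4 := hBal V A R Q k g (by omega) hS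
  have hS1 : Stt A R (⋃ i, Q i) k (2 * h) 4 :=
    ⟨hSt.le, hSt.m2, hSt.m3, hSt.big.mono hg, hSt.deg, hSt.sep, hSt.bal⟩
  have hS2 : Stt A R (⋃ i, Q i) k 4100 4 :=
    ⟨hSt.le, hSt.m2, hSt.m3, hSt.big.mono (by omega), hSt.deg, hSt.sep, hSt.bal⟩
  obtain ⟨Ξ, _, ce, hce, hced, hcand⟩ := hCand V A R Q k g (by omega) hS
  obtain ⟨H, Z, hHR, hHd, hH4, hHZ, hHs, hHb, hHh, hZ, hZQ, hHce⟩ :=
    hMatch V A R (⋃ i, Q i) k s T c j b d w 4 h N0 n η M hd1 hNC hNE h4T hje hS1 hreg Ξ ce hce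
      hced
  -- the graph `P`
  set P : SimpleGraph V := ⨆ t, H t with hP
  have hPR : P ≤ R := iSup_le hHR
  have hRA : R ≤ A := hS.le
  have hdegP : ∀ v, (P.neighborSet v).ncard = ∑ t, ((H t).neighborSet v).ncard :=
    fun v => LLG.H73.deg_iSup H hHd v
  obtain ⟨J, hJle, hJZ, hJJ, hJdeg⟩ := hJed V A R P Z k (2 * T) hRA hPR (by omega) hreg
    (by
      intro v hv
      rw [hdegP, hHZ v hv]
      ring)
    (by
      intro v
      rw [hdegP]
      have := hHs v
      omega)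
    (by
      intro v
      rw [hdegP]
      calc ∑ t, ((H t).neighborSet v).ncard ≤ ∑ _t : Fin T, 4 :=
            Finset.sum_le_sum fun t _ => hH4 t v
        _ = 2 * (2 * T) := by simp; ring)
    hZ
  obtain ⟨F, K, C, hFP, hF, hKP, hCP, hFN, hNfar, hKK, hCC, hKC⟩ :=
    hMach V A R (⋃ i, Q i) Z k T 4 hH n a ℓ Tm L Nc H hNM hS2 hHR hHd hH4
      (fun t => (hHb t).mono hHN) hHh hZ hZQ
  rw [← hP] at hKP hCP hFN
  have hJR : J ≤ R := hJle.trans sdiff_le
  have hJA : J ≤ A := hJR.trans hRA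
  have hKA : K ≤ A := hKP.trans (hPR.trans hRA)
  have hCA : C ≤ A := hCP.trans (hPR.trans hRA)
  -- the new state
  set A' : SimpleGraph V := A \ (P ⊔ J) with hA'
  set R' : SimpleGraph V := R \ (P ⊔ J) with hR'
  have hA'A : A' ≤ A := sdiff_le
  have hR'R : R' ≤ R := sdiff_le
  have hR'A' : R' ≤ A' := sdiff_le_sdiff_right hRA
  have hMM : A' \ R' = A \ R := by
    ext x y
    simp only [hA', hR', sdiff_adj, sup_adj]
    constructor
    · rintro ⟨⟨h1, h2⟩, h3⟩
      exact ⟨h1, fun h4 => h3 ⟨h4, h2⟩⟩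
    · rintro ⟨h1, h2⟩
      exact ⟨⟨h1, fun h3 => h2 (h3.elim (fun h => hPR h) (fun h => hJR h))⟩, fun h3 => h2 h3.1⟩
  have hbigA : Big A 4100 := hS2.big
  have hM2 : ∀ a b, (A \ R).Reachable a b → near A 2 a b :=
    fun a b hab => near_le sdiff_le (hS.m2 a b hab)
  have hJnot : ∀ x y, J.Adj x y → ¬ A'.Adj x y := fun x y h1 h2 => h2.2 (Or.inr h1)
  have hKnot : ∀ x y, K.Adj x y → ¬ A'.Adj x y := fun x y h1 h2 => h2.2 (Or.inl (hKP h1))
  have hCnot : ∀ x y, C.Adj x y → ¬ A'.Adj x y := fun x y h1 h2 => h2.2 (Or.inl (hCP h1))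
  -- distances
  have dQJ : ∀ x ∈ ⋃ i, Q i, ∀ y w, J.Adj y w → ¬ near A 89 x y := by
    intro x hx y w hyw h1
    obtain ⟨z, hz, hyz⟩ := hJZ y w hyw
    exact hZQ z hz x hx (near_symm (near_trans h1 hyz))
  have dQN : ∀ x ∈ ⋃ i, Q i, ∀ y w, (K ⊔ C).Adj y w → ¬ near A 88 x y := by
    intro x hx y w hyw h1
    exact (hNfar y w hyw).1 x hx (near_symm h1)
  have dJN : ∀ x v y w, J.Adj x v → (K ⊔ C).Adj y w → ¬ near A 89 x y := by
    intro x v y w hxv hyw h1
    obtain ⟨z, hz, hxz⟩ := hJZ x v hxv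
    exact (hNfar y w hyw).2 z hz (near_trans (near_symm h1) hxz)
  have gen : ∀ E : SimpleGraph V, E ≤ A → (∀ x y, E.Adj x y → ¬ A'.Adj x y) →
      (∀ u v u' v', E.Adj u v → E.Adj u' v' → near A 1990 u u' → s(u, v) = s(u', v')) →
      ∀ x v y w, E.Adj x v → E.Adj y w → x ≠ y → ¬ near A' 1990 x y := by
    intro E hEA hEn hE x v y w hxv hyw hxy h1
    have h2 := hE x v y w hxv hyw (near_le hA'A h1)
    rw [Sym2.eq_iff] at h2
    rcases h2 with ⟨h3, _⟩ | ⟨h3, h4⟩
    · exact hxy h3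
    · subst h4
      exact LLG.H73.no_short hbigA (by omega) hA'A (hEA hxv) (hEn _ _ hxv) h1
  have dJJ := gen J hJA hJnot hJJ
  have dKK := gen K hKA hKnot hKK
  have dCC := gen C hCA hCnot hCC
  have hQQ : ∀ x ∈ ⋃ i, Q i, ∀ y ∈ ⋃ i, Q i, x ≠ y → ¬ near A' 186 x y := by
    refine hcand (P ⊔ J) fun ξ => ?_
    obtain ⟨r, t, hrt⟩ := hHce ξ
    exact ⟨r, Or.inl ((le_iSup H t) hrt)⟩
  have hS' : SttC A' R' (newQ Q J K C) (k - 2 * T) g := by
    refine ⟨hR'A', ?_, ?_, hS.big.le hA'A, ?_, ?_, ?_, ?_⟩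
    · rw [hMM]; exact hS.m2
    · rw [hMM]; exact hS.m3
    · intro v
      have := hJdeg v
      have h2 : 2 * k - 2 * (2 * T) = 2 * (k - 2 * T) := by omega
      rw [← h2]
      exact this
    · intro i i' x hx y hy hxy h1
      rcases newQ_cases Q J K C hx with ⟨_, hx⟩ | ⟨_, v, hx⟩ | ⟨_, v, hx⟩ | ⟨_, v, hx⟩ <;>
        rcases newQ_cases Q J K C hy with ⟨_, hy⟩ | ⟨_, w, hy⟩ | ⟨_, w, hy⟩ | ⟨_, w, hy⟩
      · exact hQQ x hx y hy hxy (near_mono (by omega) h1)
      · exact dQJ x hx y w hy (near_mono (by omega) (near_le hA'A h1))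
      · exact dQN x hx y w (Or.inl hy) (near_mono (by omega) (near_le hA'A h1))
      · exact dQN x hx y w (Or.inr hy) (near_mono (by omega) (near_le hA'A h1))
      · exact dQJ y hy x v hx (near_mono (by omega) (near_symm (near_le hA'A h1)))
      · exact dJJ x v y w hx hy hxy (near_mono (by omega) h1)
      · exact dJN x v y w hx (Or.inl hy) (near_mono (by omega) (near_le hA'A h1))
      · exact dJN x v y w hx (Or.inr hy) (near_mono (by omega) (near_le hA'A h1))
      · exact dQN y hy x v (Or.inl hx) (near_mono (by omega) (near_symm (near_le hA'A h1)))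
      · exact dJN y w x v hy (Or.inl hx) (near_mono (by omega) (near_symm (near_le hA'A h1)))
      · exact dKK x v y w hx hy hxy (near_mono (by omega) h1)
      · exact hKC x v y w hx hy (near_mono (by omega) (near_le hA'A h1))
      · exact dQN y hy x v (Or.inr hx) (near_mono (by omega) (near_symm (near_le hA'A h1)))
      · exact dJN y w x v hy (Or.inr hx) (near_mono (by omega) (near_symm (near_le hA'A h1)))
      · exact hKC y w x v hy hx (near_mono (by omega) (near_symm (near_le hA'A h1)))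
      · exact dCC x v y w hx hy hxy (near_mono (by omega) h1)
    · exact hQQ
    · intro i hi x hx y hy hxy h1
      rcases newQ_cases Q J K C hx with ⟨h0, hx2⟩ | ⟨h0, v, hx2⟩ | ⟨h0, v, hx2⟩ | ⟨h0, v, hx2⟩
      · exact hi h0
      · subst h0
        obtain ⟨w, hy⟩ : y ∈ ends J := hy
        exact dJJ x v y w hx2 hy hxy (near_mono (by omega) h1)
      · subst h0
        obtain ⟨w, hy⟩ : y ∈ ends K := hy
        exact dKK x v y w hx2 hy hxy (near_mono (by omega) h1)
      · subst h0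
        obtain ⟨w, hy⟩ : y ∈ ends C := hy
        exact dCC x v y w hx2 hy hxy (near_mono (by omega) h1)
  obtain ⟨F', N', hF', hN'R', hFN', hN'Q, hN'N⟩ := hGood V A' R' (newQ Q J K C) hS'
  rw [hMM] at hN'Q hN'N
  have hQ0 : ∀ x ∈ ⋃ i, Q i, x ∈ ⋃ i, newQ Q J K C i :=
    fun x hx => Set.mem_iUnion.2 ⟨0, hx⟩
  have hQ1 : ∀ x v, J.Adj x v → x ∈ ⋃ i, newQ Q J K C i :=
    fun x v hx => Set.mem_iUnion.2 ⟨1, ⟨v, hx⟩⟩
  have hQ2 : ∀ x v, (K ⊔ C).Adj x v → x ∈ ⋃ i, newQ Q J K C i := by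
    rintro x v (hx | hx)
    · exact Set.mem_iUnion.2 ⟨2, ⟨v, hx⟩⟩
    · exact Set.mem_iUnion.2 ⟨3, ⟨v, hx⟩⟩
  have hNN : ∀ u v u' v', (K ⊔ C).Adj u v → (K ⊔ C).Adj u' v' → near A 90 u u' →
      s(u, v) = s(u', v') := by
    rintro u v u' v' (h1 | h1) (h2 | h2) h3
    · exact hKK u v u' v' h1 h2 (near_mono (by omega) h3)
    · exact absurd h3 (hKC u v u' v' h1 h2)
    · exact absurd (near_symm h3) (hKC u' v' u v h2 h1)
    · exact hCC u v u' v' h1 h2 (near_mono (by omega) h3)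
  have hNR : K ⊔ C ≤ R := (sup_le hKP hCP).trans hPR
  generalize hNdef : K ⊔ C = N at *
  have hk : 2 * T + (k - 2 * T) = k := by omega
  -- the conclusion
  refine ⟨fun i => Fin.append F F' (Fin.cast hk.symm i), J ⊔ N ⊔ N', ?_, ?_, ?_, ?_, ?_⟩
  · have key : ∀ j : Fin (2 * T + (k - 2 * T)), Fin.append F F' j ≤ R ∧
        (Fin.append F F' j).IsAcyclic ∧ ∀ v, ((Fin.append F F' j).neighborSet v).ncard ≤ 2 := by
      intro j
      induction j using Fin.addCases with
      | left j =>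
        rw [Fin.append_left]
        exact ⟨(hFP j).trans hPR, hF j⟩
      | right j =>
        rw [Fin.append_right]
        exact ⟨(hF' j).1.trans hR'R, (hF' j).2⟩
    exact fun i => key _
  · exact sup_le (sup_le hJR hNR) (hN'R'.trans hR'R)
  · have h1 : (⨆ i : Fin k, Fin.append F F' (Fin.cast hk.symm i)) = (⨆ i, F i) ⊔ ⨆ i, F' i := by
      apply le_antisymm
      · refine iSup_le fun i => ?_
        generalize Fin.cast hk.symm i = j
        induction j using Fin.addCases with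
        | left j =>
          simp only [Fin.append_left]
          exact (le_iSup F j).trans le_sup_left
        | right j =>
          simp only [Fin.append_right]
          exact (le_iSup F' j).trans le_sup_right
      · refine sup_le (iSup_le fun j => ?_) (iSup_le fun j => ?_)
        · have := le_iSup (fun i : Fin k => Fin.append F F' (Fin.cast hk.symm i))
            (Fin.cast hk (Fin.castAdd _ j))
          simpa using this
        · have := le_iSup (fun i : Fin k => Fin.append F F' (Fin.cast hk.symm i))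
            (Fin.cast hk (Fin.natAdd _ j))
          simpa using this
    rw [h1]
    have h2 : (⨆ i, F i) ⊔ (⨆ i, F' i) ⊔ (J ⊔ N ⊔ N') =
        (((⨆ i, F i) ⊔ N) ⊔ J) ⊔ ((⨆ i, F' i) ⊔ N') := by
      ac_rfl
    rw [h2, hFN, hFN', hR']
    exact sup_sdiff_cancel_right (sup_le hPR hJR)
  · rintro u v ((h1 | h1) | h1) x hx h2
    · exact dQJ x hx u v h1 (near_mono (by omega) (near_symm (hM2 u x h2)))
    · exact dQN x hx u v h1 (near_mono (by omega) (near_symm (hM2 u x h2)))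
    · exact hN'Q u v h1 x (hQ0 x hx) h2
  · rintro u v u' v' ((h1 | h1) | h1) ((h2 | h2) | h2) h3
    · exact hJJ u v u' v' h1 h2 (near_mono (by omega) (hM2 u u' h3))
    · exact absurd (near_mono (by omega) (hM2 u u' h3)) (dJN u v u' v' h1 h2)
    · exact absurd h3.symm (hN'Q u' v' h2 u (hQ1 u v h1))
    · exact absurd (near_mono (by omega) (hM2 u' u h3.symm)) (dJN u' v' u v h2 h1)
    · exact hNN u v u' v' h1 h2 (near_mono (by omega) (hM2 u u' h3))
    · exact absurd h3.symm (hN'Q u' v' h2 u (hQ2 u v h1))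
    · exact absurd h3 (hN'Q u v h1 u' (hQ1 u' v' h2))
    · exact absurd h3 (hN'Q u v h1 u' (hQ2 u' v' h2))
    · exact hN'N u v u' v' h1 h2 h3

end Pool.Agent.CG.H53
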