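import Pool.Agent.Helper9_CG.Stmt

/-!
# CG: VIP, probability of the violation (exponential moments)
-/

set_option autoImplicit false

namespace Pool.Agent.CG.H53

open SimpleGraph Pool.Agent.LAG Pool.Agent.LLG Pool.Agent.CG

theorem exp_ineq (l : ℝ) (b f : ℕ) (hb : b ≤ 1) (hf : f ≤ 1) :
    Real.exp (l * ((f : ℝ) - b)) ≤
      1 - (1 - Real.exp (-l)) * b + (Real.exp l - 1) * f := by
  have e1 := Real.add_one_le_exp l
  have e2 := Real.add_one_le_exp (-l)
  interval_cases b <;> interval_cases f <;> (simp; try linarith)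

theorem sum_pi {G β : Type} [Fintype G] [DecidableEq G] [Fintype β] (f : G → β → ℝ) :
    ∑ τ : G → β, ∏ x, f x (τ x) = ∏ x, ∑ j, f x j := by
  rw [Finset.prod_univ_sum, Fintype.piFinset_univ]

theorem lemA {α G : Type} [Fintype G] [DecidableEq α] [DecidableEq G] {s : ℕ} [NeZero s] (l : ℝ)
    (hl : 0 ≤ l)
    (E1 E2 : Finset α) (g : α → G) (i : α → Fin s) (t : Fin s)
    (h1 : ∀ a ∈ E1, ∀ a' ∈ E1, g a = g a' → i a = i a' → a = a')
    (h2 : ∀ a ∈ E2, ∀ a' ∈ E2, g a = g a' → i a = i a' → a = a')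
    (h3 : ∀ a ∈ E1, ∀ a' ∈ E2, g a ≠ g a') :
    ∑ τ : G → Fin s, Real.exp (l * (((E2.filter (fun a => i a + τ (g a) = t)).card : ℝ) -
      (E1.filter (fun a => i a + τ (g a) = t)).card)) ≤
    (s : ℝ) ^ Fintype.card G * Real.exp (-((1 - Real.exp (-l)) * E1.card / s)) *
      (1 + (Real.exp l - 1) / s) ^ E2.card := by
  have hs : (0 : ℝ) < s := by exact_mod_cast Nat.pos_of_ne_zero (NeZero.ne s)
  set p := 1 - Real.exp (-l) with hp
  set q := Real.exp l - 1 with hq
  have hq0 : 0 ≤ q := by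
    have := Real.add_one_le_exp l
    linarith
  have key : ∀ (E : Finset α) (τ : G → Fin s),
      ((E.filter (fun a => i a + τ (g a) = t)).card : ℝ) =
        ∑ x : G, (((E.filter (fun a => g a = x)).filter (fun a => i a + τ x = t)).card : ℝ) := by
    intro E τ
    rw [← Nat.cast_sum]
    congr 1
    rw [Finset.card_eq_sum_card_fiberwise (f := g) (t := Finset.univ) (fun a _ => by simp)]
    refine Finset.sum_congr rfl fun x _ => ?_
    congr 1
    ext a
    simp only [Finset.mem_filter]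
    constructor
    · rintro ⟨⟨ha, hb⟩, hc⟩
      rw [hc] at hb
      exact ⟨⟨ha, hc⟩, hb⟩
    · rintro ⟨⟨ha, hc⟩, hb⟩
      rw [← hc] at hb
      exact ⟨⟨ha, hb⟩, hc⟩
  have sumi : ∀ (E : Finset α) (x : G),
      ∑ j : Fin s, (((E.filter (fun a => g a = x)).filter (fun a => i a + j = t)).card : ℝ) =
        ((E.filter (fun a => g a = x)).card : ℝ) := by
    intro E x
    rw [← Nat.cast_sum]
    congr 1
    rw [Finset.card_eq_sum_card_fiberwise (f := fun a => t - i a) (t := Finset.univ)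
      (fun a _ => by simp)]
    refine Finset.sum_congr rfl fun j _ => ?_
    congr 1
    ext a
    simp only [Finset.mem_filter, and_congr_right_iff]
    intro _
    constructor
    · intro h
      rw [← h, add_sub_cancel_left]
    · intro h
      rw [← h, add_sub_cancel]
  have le1 : ∀ (E : Finset α), (∀ a ∈ E, ∀ a' ∈ E, g a = g a' → i a = i a' → a = a') →
      ∀ (x : G) (j : Fin s),
      ((E.filter (fun a => g a = x)).filter (fun a => i a + j = t)).card ≤ 1 := by
    intro E hE x j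
    rw [Finset.card_le_one]
    intro a ha a' ha'
    simp only [Finset.mem_filter] at ha ha'
    refine hE a ha.1.1 a' ha'.1.1 (ha.1.2.trans ha'.1.2.symm) ?_
    have := ha.2.trans ha'.2.symm
    exact add_right_cancel this
  have step1 : ∀ τ : G → Fin s,
      Real.exp (l * (((E2.filter (fun a => i a + τ (g a) = t)).card : ℝ) -
        (E1.filter (fun a => i a + τ (g a) = t)).card)) =
      ∏ x : G, Real.exp (l *
        ((((E2.filter (fun a => g a = x)).filter (fun a => i a + τ x = t)).card : ℝ) -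
        (((E1.filter (fun a => g a = x)).filter (fun a => i a + τ x = t)).card : ℝ))) := by
    intro τ
    rw [key E1 τ, key E2 τ, ← Real.exp_sum, ← Finset.sum_sub_distrib, Finset.mul_sum]
  rw [Finset.sum_congr rfl fun τ _ => step1 τ]
  rw [sum_pi (fun x j => Real.exp (l *
        ((((E2.filter (fun a => g a = x)).filter (fun a => i a + j = t)).card : ℝ) -
        (((E1.filter (fun a => g a = x)).filter (fun a => i a + j = t)).card : ℝ))))]
  have step2 : ∀ x : G, ∑ j : Fin s, Real.exp (l *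
        ((((E2.filter (fun a => g a = x)).filter (fun a => i a + j = t)).card : ℝ) -
        (((E1.filter (fun a => g a = x)).filter (fun a => i a + j = t)).card : ℝ))) ≤
      (s : ℝ) * (Real.exp (-(p * ((E1.filter (fun a => g a = x)).card : ℝ) / s)) *
        (1 + q / s) ^ (E2.filter (fun a => g a = x)).card) := by
    intro x
    have e1 : ∑ j : Fin s, Real.exp (l *
        ((((E2.filter (fun a => g a = x)).filter (fun a => i a + j = t)).card : ℝ) -
        (((E1.filter (fun a => g a = x)).filter (fun a => i a + j = t)).card : ℝ))) ≤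
        s - p * ((E1.filter (fun a => g a = x)).card : ℝ) +
          q * ((E2.filter (fun a => g a = x)).card : ℝ) := by
      calc _ ≤ ∑ j : Fin s, (1 -
            p * (((E1.filter (fun a => g a = x)).filter (fun a => i a + j = t)).card : ℝ) +
            q * (((E2.filter (fun a => g a = x)).filter (fun a => i a + j = t)).card : ℝ)) :=
            Finset.sum_le_sum fun j _ => exp_ineq l _ _ (le1 E1 h1 x j) (le1 E2 h2 x j)
        _ = _ := by
            rw [Finset.sum_add_distrib, Finset.sum_sub_distrib, ← Finset.mul_sum,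
              ← Finset.mul_sum, sumi, sumi]
            simp
    refine e1.trans ?_
    by_cases hn : (E1.filter (fun a => g a = x)) = ∅
    · rw [hn]
      simp only [Finset.card_empty, Nat.cast_zero, mul_zero, zero_div, neg_zero, Real.exp_zero,
        one_mul, sub_zero]
      have hb := one_add_mul_le_pow (a := q / s) (by
        have : 0 ≤ q / s := div_nonneg hq0 hs.le
        linarith) (E2.filter (fun a => g a = x)).card
      calc (s : ℝ) + q * ((E2.filter (fun a => g a = x)).card : ℝ)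
          = s * (1 + ((E2.filter (fun a => g a = x)).card : ℝ) * (q / s)) := by
            field_simp
        _ ≤ _ := mul_le_mul_of_nonneg_left hb hs.le
    · obtain ⟨a, ha⟩ := Finset.nonempty_iff_ne_empty.2 hn
      rw [Finset.mem_filter] at ha
      have hm : (E2.filter (fun a => g a = x)) = ∅ := by
        rw [Finset.filter_eq_empty_iff]
        intro a' ha' hx
        exact h3 a ha.1 a' ha' (ha.2.trans hx.symm)
      rw [hm]
      simp only [Finset.card_empty, Nat.cast_zero, mul_zero, add_zero, pow_zero, mul_one]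
      have hb := Real.add_one_le_exp (-(p * ((E1.filter (fun a => g a = x)).card : ℝ) / s))
      calc (s : ℝ) - p * ((E1.filter (fun a => g a = x)).card : ℝ)
          = s * (-(p * ((E1.filter (fun a => g a = x)).card : ℝ) / s) + 1) := by
            field_simp
            ring
        _ ≤ _ := mul_le_mul_of_nonneg_left hb hs.le
  refine (Finset.prod_le_prod (fun x _ => Finset.sum_nonneg fun j _ => (Real.exp_pos _).le)
    fun x _ => step2 x).trans (le_of_eq ?_)
  rw [Finset.prod_mul_distrib, Finset.prod_mul_distrib, Finset.prod_const, Finset.card_univ,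
    ← Real.exp_sum, Finset.prod_pow_eq_pow_sum, mul_assoc]
  congr 2
  · congr 1
    rw [Finset.sum_neg_distrib, ← Finset.sum_div, ← Finset.mul_sum, ← Nat.cast_sum,
      ← Finset.card_eq_sum_card_fiberwise (f := g) (t := Finset.univ) (fun a _ => by simp)]
  · rw [← Finset.card_eq_sum_card_fiberwise (f := g) (t := Finset.univ) (fun a _ => by simp)]

theorem lemB {α Ξ : Type} [Fintype Ξ] [DecidableEq α] [DecidableEq Ξ] (E2 : Finset α)
    (e : Ξ → Fin 3 → α) (he : ∀ ξ r ξ' r', e ξ r = e ξ' r' → ξ = ξ' ∧ r = r') (y : ℝ)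
    (hy : 0 ≤ y) :
    ∑ ρ : Ξ → Fin 3, (1 + y) ^ (E2.filter (fun a => ∃ ξ, e ξ (ρ ξ) = a)).card ≤
      3 ^ Fintype.card Ξ * Real.exp (y * E2.card / 3) := by
  have step1 : ∀ ρ : Ξ → Fin 3, (1 + y) ^ (E2.filter (fun a => ∃ ξ, e ξ (ρ ξ) = a)).card ≤
      ∏ ξ, (if e ξ (ρ ξ) ∈ E2 then 1 + y else 1) := by
    intro ρ
    rw [Finset.prod_ite, Finset.prod_const, Finset.prod_const_one, mul_one]
    refine pow_le_pow_right₀ (by linarith) ?_
    refine (Finset.card_le_card ?_).trans
      (Finset.card_image_le (s := Finset.univ.filter (fun ξ => e ξ (ρ ξ) ∈ E2))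
        (f := fun ξ => e ξ (ρ ξ)))
    intro a ha
    simp only [Finset.mem_filter, Finset.mem_image, Finset.mem_univ, true_and] at ha ⊢
    obtain ⟨ha, ξ, hξ⟩ := ha
    exact ⟨ξ, by rw [hξ]; exact ha, hξ⟩
  refine (Finset.sum_le_sum fun ρ _ => step1 ρ).trans ?_
  rw [sum_pi (fun ξ r => if e ξ r ∈ E2 then 1 + y else 1)]
  have step2 : ∀ ξ, ∑ r : Fin 3, (if e ξ r ∈ E2 then 1 + y else (1 : ℝ)) ≤
      3 * Real.exp (y * ((Finset.univ.filter (fun r => e ξ r ∈ E2)).card : ℝ) / 3) := by
    intro ξ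
    have e1 : ∑ r : Fin 3, (if e ξ r ∈ E2 then 1 + y else (1 : ℝ)) =
        3 + y * ((Finset.univ.filter (fun r => e ξ r ∈ E2)).card : ℝ) := by
      have : ∀ r : Fin 3, (if e ξ r ∈ E2 then 1 + y else (1 : ℝ)) =
          1 + (if e ξ r ∈ E2 then y else 0) := by
        intro r
        split_ifs <;> simp
      rw [Finset.sum_congr rfl fun r _ => this r, Finset.sum_add_distrib, Finset.sum_ite,
        Finset.sum_const, Finset.sum_const_zero, add_zero, nsmul_eq_mul]
      simp [mul_comm]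
    rw [e1]
    have := Real.add_one_le_exp (y * ((Finset.univ.filter (fun r => e ξ r ∈ E2)).card : ℝ) / 3)
    linarith
  refine (Finset.prod_le_prod (fun ξ _ => Finset.sum_nonneg fun r _ => by split_ifs <;> linarith)
    fun ξ _ => step2 ξ).trans ?_
  rw [Finset.prod_mul_distrib, Finset.prod_const, Finset.card_univ, ← Real.exp_sum,
    ← Finset.sum_div, ← Finset.mul_sum, ← Nat.cast_sum]
  refine mul_le_mul_of_nonneg_left (Real.exp_le_exp.2 ?_) (by positivity)
  have hc : ∑ ξ, (Finset.univ.filter (fun r => e ξ r ∈ E2)).card ≤ E2.card := by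
    rw [← Finset.card_sigma]
    refine Finset.card_le_card_of_injOn (fun x => e x.1 x.2) ?_ ?_
    · intro x hx
      simpa using hx
    · rintro ⟨ξ, r⟩ _ ⟨ξ', r'⟩ _ h
      obtain ⟨h1, h2⟩ := he _ _ _ _ h
      subst h1 h2
      rfl
  have hc' : ((∑ ξ, (Finset.univ.filter (fun r => e ξ r ∈ E2)).card : ℕ) : ℝ) ≤ E2.card := by
    exact_mod_cast hc
  have := mul_le_mul_of_nonneg_left hc' hy
  linarith

theorem lemC {V : Type} [Fintype V] [DecidableEq V] (b : ℕ) (l : ℝ) (X : Finset V) (c : ℕ)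
    (hc : c < b) :
    ∑ ν : V → Fin b, Real.exp (-(l * ((X.filter (fun v => (ν v).val = c)).card : ℝ))) ≤
      (b : ℝ) ^ Fintype.card V * Real.exp (-((1 - Real.exp (-l)) * X.card / b)) := by
  have hb : (0 : ℝ) < b := by exact_mod_cast (by omega : 0 < b)
  set p := 1 - Real.exp (-l) with hp
  have step1 : ∀ ν : V → Fin b,
      Real.exp (-(l * ((X.filter (fun v => (ν v).val = c)).card : ℝ))) =
      ∏ v, (if v ∈ X then (if (ν v).val = c then Real.exp (-l) else 1) else 1) := by
    intro ν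
    have : ∀ v, (if v ∈ X then (if (ν v).val = c then Real.exp (-l) else 1) else 1) =
        if v ∈ X.filter (fun v => (ν v).val = c) then Real.exp (-l) else 1 := by
      intro v
      by_cases h1 : v ∈ X <;> by_cases h2 : (ν v).val = c <;> simp [h1, h2]
    rw [Finset.prod_congr rfl fun v _ => this v, Finset.prod_ite_mem, Finset.univ_inter,
      Finset.prod_const, ← Real.exp_nat_mul]
    congr 1
    ring
  rw [Finset.sum_congr rfl fun ν _ => step1 ν]
  rw [sum_pi (fun v (j : Fin b) => if v ∈ X then (if j.val = c then Real.exp (-l) else 1) else 1)]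
  have step2 : ∀ v, ∑ j : Fin b,
      (if v ∈ X then (if j.val = c then Real.exp (-l) else 1) else (1 : ℝ)) ≤
      b * Real.exp (if v ∈ X then -(p / b) else 0) := by
    intro v
    by_cases h : v ∈ X
    · simp only [h, if_true]
      have e1 : ∑ j : Fin b, (if j.val = c then Real.exp (-l) else (1 : ℝ)) = b - p := by
        have : ∀ j : Fin b, (if j.val = c then Real.exp (-l) else (1 : ℝ)) =
            1 - (if j = ⟨c, hc⟩ then p else 0) := by
          intro j
          by_cases hj : j.val = c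
          · have : j = ⟨c, hc⟩ := Fin.ext hj
            simp [hj, this, hp]
          · have : j ≠ ⟨c, hc⟩ := fun h => hj (by rw [h])
            simp [hj, this]
        rw [Finset.sum_congr rfl fun j _ => this j, Finset.sum_sub_distrib]
        simp
      rw [e1]
      have := Real.add_one_le_exp (-(p / b))
      calc (b : ℝ) - p = b * (-(p / b) + 1) := by field_simp; ring
        _ ≤ _ := mul_le_mul_of_nonneg_left this hb.le
    · simp [h]
  refine (Finset.prod_le_prod (fun v _ => Finset.sum_nonneg fun j _ => by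
    split_ifs <;> positivity) fun v _ => step2 v).trans (le_of_eq ?_)
  rw [Finset.prod_mul_distrib, Finset.prod_const, Finset.card_univ, ← Real.exp_sum]
  congr 2
  rw [Finset.sum_ite_mem, Finset.univ_inter, Finset.sum_const, nsmul_eq_mul]
  ring

theorem deg_sum {V : Type} [Fintype V] (O : V → V → Prop) (k : ℕ)
    (h : ∀ v, {w | O v w}.ncard = k) (A : Set V) :
    eb O A Set.univ = k * A.ncard := by
  classical
  have e1 : eb O A Set.univ = ∑ x ∈ A.toFinset, {y | O x y}.ncard := by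
    unfold eb
    rw [Set.ncard_eq_toFinset_card' {p : V × V | p.1 ∈ A ∧ p.2 ∈ Set.univ ∧ O p.1 p.2}]
    have : ({p : V × V | p.1 ∈ A ∧ p.2 ∈ Set.univ ∧ O p.1 p.2}).toFinset =
        A.toFinset.biUnion (fun x => ({y | O x y} : Set V).toFinset.image (fun y => (x, y))) := by
      ext ⟨a, b⟩
      simp
    rw [this, Finset.card_biUnion]
    · refine Finset.sum_congr rfl fun x _ => ?_
      rw [Finset.card_image_of_injective _ (Prod.mk_right_injective x),
        Set.ncard_eq_toFinset_card']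
    · intro x _ y _ hxy
      show Disjoint _ _
      rw [Finset.disjoint_left]
      intro p hp hq
      simp only [Finset.mem_image] at hp hq
      obtain ⟨_, _, rfl⟩ := hp
      obtain ⟨_, _, h2⟩ := hq
      exact hxy (Prod.mk.inj h2).1.symm
  rw [e1, Finset.sum_congr rfl fun x _ => h x, Finset.sum_const, smul_eq_mul,
    Set.ncard_eq_toFinset_card', mul_comm]

theorem eb_swap {V : Type} [Fintype V] (O : V → V → Prop) (A S : Set V) :
    eb O A S = eb (fun x y => O y x) S A := by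
  unfold eb
  rw [← Set.ncard_image_of_injective {p : V × V | p.1 ∈ A ∧ p.2 ∈ S ∧ O p.1 p.2}
    Prod.swap_injective]
  congr 1
  ext ⟨a, b⟩
  simp only [Set.mem_image, Set.mem_ofPred_eq]
  constructor
  · rintro ⟨⟨c, d⟩, ⟨h1, h2, h3⟩, h4⟩
    simp only [Prod.swap_prod_mk, Prod.mk.injEq] at h4
    obtain ⟨rfl, rfl⟩ := h4
    exact ⟨h2, h1, h3⟩
  · rintro ⟨h1, h2, h3⟩
    exact ⟨(b, a), ⟨h2, h1, h3⟩, rfl⟩

theorem bal_eq {V : Type} [Fintype V] (O : V → V → Prop) (k : ℕ)
    (h : ∀ v, {w | O v w}.ncard = k ∧ {w | O w v}.ncard = k) (A S : Set V) :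
    eb O A Sᶜ + k * S.ncard = eb O Aᶜ S + k * A.ncard := by
  have h1 := deg_sum O k (fun v => (h v).1) A
  have h2 := deg_sum (fun x y => O y x) k (fun v => (h v).2) S
  rw [← eb_swap] at h2
  have h3 := H7.eb_union_right O A S Sᶜ disjoint_compl_right
  have h4 := H7.eb_union_left O A Aᶜ S disjoint_compl_right
  rw [Set.union_compl_self] at h3 h4
  omega

theorem exp_fifth : Real.exp (1 / 5 : ℝ) ≤ 12215 / 10000 := by
  have h := Real.exp_one_lt_d9
  rw [← pow_le_pow_iff_left₀ (Real.exp_pos _).le (by norm_num) (n := 5) (by norm_num),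
    ← Real.exp_nat_mul]
  have : ((5 : ℕ) : ℝ) * (1 / 5) = 1 := by norm_num
  rw [this]
  refine h.le.trans ?_
  norm_num

theorem exp_neg_fifth : Real.exp (-(1 / 5) : ℝ) ≤ 82 / 100 := by
  have h := Real.exp_neg_one_lt_d9
  rw [← pow_le_pow_iff_left₀ (Real.exp_pos _).le (by norm_num) (n := 5) (by norm_num),
    ← Real.exp_nat_mul]
  have : ((5 : ℕ) : ℝ) * (-(1 / 5)) = -1 := by norm_num
  rw [this]
  refine h.le.trans ?_
  norm_num

/-- VIP: probability of the violation. -/
theorem vip : VipStmt := by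
  classical
  intro V G Ξ _ _ _ s b k j _ D t A S hj hD h1 h2 h3
  have hs0 : 0 < s := Nat.pos_of_ne_zero (NeZero.ne s)
  have hs : (0 : ℝ) < s := by exact_mod_cast hs0
  have hb0 : 0 < b := by omega
  have hb : (0 : ℝ) < b := by exact_mod_cast hb0
  have hk0 : 0 < k := by
    have : 0 < 12 * j * s := by positivity
    omega
  have hk : (0 : ℝ) < k := by exact_mod_cast hk0
  have hjr : (1 : ℝ) ≤ j := by exact_mod_cast hj
  have hp18 : (18 : ℝ) / 100 ≤ 1 - Real.exp (-(1 / 5)) := by
    have := exp_neg_fifth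
    linarith
  have hq22 : Real.exp (1 / 5) - 1 ≤ (2215 : ℝ) / 10000 := by
    have := exp_fifth
    linarith
  have hq0 : 0 ≤ Real.exp (1 / 5 : ℝ) - 1 := by
    have := Real.add_one_le_exp (1 / 5 : ℝ)
    linarith
  set code := 2 * t.val + D.sd.toNat with hcode
  have hcb : code < b := by
    have ht := t.isLt
    have : D.sd.toNat ≤ 1 := Bool.toNat_le _
    omega
  set E1 : Finset (V × V) :=
    ({a | a.1 ∈ A ∧ a.2 ∈ Sᶜ ∧ D.O a.1 a.2} : Set (V × V)).toFinset with hE1
  set E2 : Finset (V × V) :=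
    ({a | a.1 ∈ Aᶜ ∧ a.2 ∈ S ∧ D.O a.1 a.2} : Set (V × V)).toFinset with hE2
  set X : Finset V := (A ∩ D.al).toFinset with hX
  have cE1 : E1.card = eb D.O A Sᶜ := by
    unfold eb
    rw [Set.ncard_eq_toFinset_card']
  have cE2 : E2.card = eb D.O Aᶜ S := by
    unfold eb
    rw [Set.ncard_eq_toFinset_card']
  have cX : X.card = (A ∩ D.al).ncard := by
    rw [Set.ncard_eq_toFinset_card']
  have hinj : ∀ a a' : V × V, D.O a.1 a.2 → D.O a'.1 a'.2 → D.grp a.1 a.2 = D.grp a'.1 a'.2 →
      D.idx a.1 a.2 = D.idx a'.1 a'.2 → a = a' := by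
    intro a a' ha ha' hg hi
    obtain ⟨e1, e2⟩ := hD.gs.inj _ _ _ _ ha ha' hg hi
    exact Prod.ext e1 e2
  -- the three parts
  have cB : ∀ ω : Om V G Ξ s b, eb (D.B ω t) A Sᶜ =
      (E1.filter (fun a => D.idx a.1 a.2 + ω.1 (D.grp a.1 a.2) = t)).card := by
    intro ω
    unfold eb
    rw [Set.ncard_eq_toFinset_card']
    congr 1
    ext a
    rw [Set.mem_toFinset, Finset.mem_filter, hE1, Set.mem_toFinset]
    simp only [Set.mem_ofPred_eq, Rd.B]
    tauto
  have cF : ∀ ω : Om V G Ξ s b, eb (D.F ω t) Aᶜ S =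
      ((E2.filter (fun a => ∃ ξ, D.e ξ (ω.2.1 ξ) = a)).filter
        (fun a => D.idx a.1 a.2 + ω.1 (D.grp a.1 a.2) = t)).card := by
    intro ω
    unfold eb
    rw [Set.ncard_eq_toFinset_card']
    congr 1
    ext a
    rw [Set.mem_toFinset, Finset.mem_filter, Finset.mem_filter, hE2, Set.mem_toFinset]
    simp only [Set.mem_ofPred_eq, Rd.F, Rd.B, Prod.mk.eta]
    tauto
  have cZ : ∀ ω : Om V G Ξ s b, (A ∩ D.Z ω t).ncard =
      (X.filter (fun v => (ω.2.2 v).val = code)).card := by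
    intro ω
    rw [Set.ncard_eq_toFinset_card']
    congr 1
    ext v
    rw [Set.mem_toFinset, Finset.mem_filter, hX, Set.mem_toFinset]
    simp only [Set.mem_inter_iff, Set.mem_ofPred_eq, Rd.Z, hcode]
    tauto
  set u : (G → Fin s) → (Ξ → Fin 3) → ℝ := fun τ ρ => Real.exp (1 / 5 *
    ((((E2.filter (fun a => ∃ ξ, D.e ξ (ρ ξ) = a)).filter
        (fun a => D.idx a.1 a.2 + τ (D.grp a.1 a.2) = t)).card : ℝ) -
      ((E1.filter (fun a => D.idx a.1 a.2 + τ (D.grp a.1 a.2) = t)).card : ℝ))) with hu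
  set z : (V → Fin b) → ℝ := fun ν =>
    Real.exp (-(1 / 5 * ((X.filter (fun v => (ν v).val = code)).card : ℝ))) with hz
  set c : ℝ := Real.exp (1 / 5 * (5 * j * A.ncard - 5 * j * S.ncard)) with hc
  have hcard : (({ω : Om V G Ξ s b | 5 * j * S.ncard + eb (D.B ω t) A Sᶜ +
      (A ∩ D.Z ω t).ncard + 1 ≤ 5 * j * A.ncard + eb (D.F ω t) Aᶜ S}.ncard : ℝ)) ≤
      ∑ ω : Om V G Ξ s b, c * (u ω.1 ω.2.1 * z ω.2.2) := by
    rw [Set.ncard_eq_toFinset_card', Finset.cast_card]
    refine (Finset.sum_le_sum (g := fun ω : Om V G Ξ s b => c * (u ω.1 ω.2.1 * z ω.2.2))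
      fun ω hω => ?_).trans
      (Finset.sum_le_sum_of_subset_of_nonneg (Finset.subset_univ _) fun ω _ _ => by positivity)
    rw [Set.mem_toFinset, Set.mem_ofPred_eq, cB, cF, cZ] at hω
    simp only [hc, hu, hz]
    rw [← Real.exp_add, ← Real.exp_add]
    rw [Real.one_le_exp_iff]
    have hω' : ((5 * j * S.ncard + (E1.filter (fun a => D.idx a.1 a.2 +
        ω.1 (D.grp a.1 a.2) = t)).card + (X.filter (fun v => (ω.2.2 v).val = code)).card + 1 :
        ℕ) : ℝ) ≤ ((5 * j * A.ncard + ((E2.filter (fun a => ∃ ξ, D.e ξ (ω.2.1 ξ) = a)).filter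
        (fun a => D.idx a.1 a.2 + ω.1 (D.grp a.1 a.2) = t)).card : ℕ) : ℝ) := by
      exact_mod_cast hω
    push_cast at hω'
    linarith
  have hsum : ∑ ω : Om V G Ξ s b, c * (u ω.1 ω.2.1 * z ω.2.2) =
      c * ((∑ ρ, ∑ τ, u τ ρ) * ∑ ν, z ν) := by
    rw [← Finset.mul_sum]
    congr 1
    rw [Fintype.sum_prod_type]
    simp_rw [Fintype.sum_prod_type, ← Finset.mul_sum]
    rw [Finset.sum_comm]
    simp_rw [← Finset.sum_mul]
  have hA : ∀ ρ : Ξ → Fin 3, ∑ τ, u τ ρ ≤ (s : ℝ) ^ Fintype.card G *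
      Real.exp (-((1 - Real.exp (-(1 / 5))) * E1.card / s)) *
      (1 + (Real.exp (1 / 5) - 1) / s) ^
        (E2.filter (fun a => ∃ ξ, D.e ξ (ρ ξ) = a)).card := by
    intro ρ
    refine lemA (1 / 5) (by norm_num) E1 (E2.filter (fun a => ∃ ξ, D.e ξ (ρ ξ) = a))
      (fun a => D.grp a.1 a.2) (fun a => D.idx a.1 a.2) t ?_ ?_ ?_
    · intro a ha a' ha'
      rw [hE1, Set.mem_toFinset] at ha ha'
      exact hinj a a' ha.2.2 ha'.2.2
    · intro a ha a' ha'
      rw [Finset.mem_filter, hE2, Set.mem_toFinset] at ha ha'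
      exact hinj a a' ha.1.2.2 ha'.1.2.2
    · intro a ha a' ha' hg
      rw [hE1, Set.mem_toFinset] at ha
      rw [Finset.mem_filter, hE2, Set.mem_toFinset] at ha'
      rcases hD.gs.sh _ _ _ _ ha.2.2 ha'.1.2.2 hg with h | h
      · exact ha'.1.1 (h ▸ ha.1)
      · exact ha.2.1 (h ▸ ha'.1.2.1)
  have hB := lemB E2 D.e (fun ξ r ξ' r' h => by
    by_contra hne
    have hne' : (ξ, r) ≠ (ξ', r') := by
      intro h'
      exact hne ⟨(Prod.mk.inj h').1, (Prod.mk.inj h').2⟩
    exact (hD.ed ξ r ξ' r' hne').1 (by rw [h])) ((Real.exp (1 / 5) - 1) / s)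
    (div_nonneg hq0 hs.le)
  have hC := lemC b (1 / 5) X code hcb
  have hAB : ∑ ρ, ∑ τ, u τ ρ ≤ (s : ℝ) ^ Fintype.card G *
      Real.exp (-((1 - Real.exp (-(1 / 5))) * E1.card / s)) *
      (3 ^ Fintype.card Ξ * Real.exp ((Real.exp (1 / 5) - 1) / s * E2.card / 3)) := by
    refine (Finset.sum_le_sum fun ρ _ => hA ρ).trans ?_
    rw [← Finset.mul_sum]
    exact mul_le_mul_of_nonneg_left hB (by positivity)
  have hu0 : 0 ≤ ∑ ρ, ∑ τ, u τ ρ :=
    Finset.sum_nonneg fun ρ _ => Finset.sum_nonneg fun τ _ => (Real.exp_pos _).le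
  have hcardOm : (Nat.card (Om V G Ξ s b) : ℝ) =
      (s : ℝ) ^ Fintype.card G * (3 ^ Fintype.card Ξ * (b : ℝ) ^ Fintype.card V) := by
    rw [Nat.card_eq_fintype_card]
    simp only [Om, Fintype.card_prod, Fintype.card_fun, Fintype.card_fin]
    push_cast
    ring
  rw [hsum] at hcard
  refine hcard.trans ?_
  have hfin : c * ((∑ ρ, ∑ τ, u τ ρ) * ∑ ν, z ν) ≤ c * (((s : ℝ) ^ Fintype.card G *
      Real.exp (-((1 - Real.exp (-(1 / 5))) * E1.card / s)) *
      (3 ^ Fintype.card Ξ * Real.exp ((Real.exp (1 / 5) - 1) / s * E2.card / 3))) *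
      ((b : ℝ) ^ Fintype.card V * Real.exp (-((1 - Real.exp (-(1 / 5))) * X.card / b)))) := by
    refine mul_le_mul_of_nonneg_left ?_ (Real.exp_pos _).le
    exact mul_le_mul hAB hC (Finset.sum_nonneg fun ν _ => (Real.exp_pos _).le) (by positivity)
  refine hfin.trans ?_
  rw [hcardOm]
  have hexp : c * (Real.exp (-((1 - Real.exp (-(1 / 5))) * E1.card / s)) *
      Real.exp ((Real.exp (1 / 5) - 1) / s * E2.card / 3) *
      Real.exp (-((1 - Real.exp (-(1 / 5))) * X.card / b))) ≤
      Real.exp (-((j : ℝ) / 10 * ((eb D.O A Sᶜ : ℝ) + eb D.O Aᶜ S) / k +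
        18 / 100 * ((A ∩ D.al).ncard : ℝ) / b)) := by
    rw [hc, ← Real.exp_add, ← Real.exp_add, ← Real.exp_add]
    refine Real.exp_le_exp.2 ?_
    rw [cE1, cE2, cX]
    have hbal := bal_eq D.O k hD.reg A S
    have hbal' : (eb D.O A Sᶜ : ℝ) + k * S.ncard = eb D.O Aᶜ S + k * A.ncard := by
      exact_mod_cast hbal
    generalize (1 - Real.exp (-(1 / 5)) : ℝ) = p at hp18
    generalize (Real.exp (1 / 5) - 1 : ℝ) = q at hq22 hq0
    generalize (eb D.O A Sᶜ : ℕ) = B1 at hbal'
    generalize (eb D.O Aᶜ S : ℕ) = B2 at hbal'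
    generalize ((A ∩ D.al).ncard : ℕ) = x
    have hB1 : (0 : ℝ) ≤ B1 := Nat.cast_nonneg _
    have hB2 : (0 : ℝ) ≤ B2 := Nat.cast_nonneg _
    have hx : (0 : ℝ) ≤ x := Nat.cast_nonneg _
    have h1' : 12 * (j : ℝ) * s ≤ k := by exact_mod_cast h1
    have h2' : 100 * (k : ℝ) ≤ 1212 * j * s := by exact_mod_cast h2
    have t1 : (j : ℝ) * ((A.ncard : ℝ) - S.ncard) = j * ((B1 : ℝ) - B2) / k := by
      rw [eq_div_iff hk.ne']
      linear_combination -(j : ℝ) * hbal'
    have r1 : 12 * (j : ℝ) / k ≤ 1 / s := by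
      rw [div_le_div_iff₀ hk hs]
      linarith
    have r2 : 1 / (s : ℝ) ≤ 1212 / 100 * j / k := by
      rw [div_le_div_iff₀ hs hk]
      linarith
    have t2 : 216 / 100 * (j : ℝ) / k * B1 ≤ p * B1 / s := by
      have e1 : 18 / 100 * (12 * (j : ℝ) / k) ≤ p * (1 / s) :=
        mul_le_mul hp18 r1 (by positivity) (by linarith)
      have := mul_le_mul_of_nonneg_right e1 hB1
      calc 216 / 100 * (j : ℝ) / k * B1 = 18 / 100 * (12 * (j : ℝ) / k) * B1 := by ring
        _ ≤ p * (1 / s) * B1 := this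
        _ = _ := by ring
    have t3 : q / s * B2 / 3 ≤ 2215 / 10000 * (1212 / 100 * j / k) * B2 / 3 := by
      have e1 : q * (1 / (s : ℝ)) ≤ 2215 / 10000 * (1212 / 100 * j / k) :=
        mul_le_mul hq22 r2 (by positivity) (by norm_num)
      have := mul_le_mul_of_nonneg_right e1 hB2
      have e2 : q / s = q * (1 / (s : ℝ)) := by ring
      rw [e2]
      linarith
    have t4 : 18 / 100 * (x : ℝ) / b ≤ p * x / b := by
      gcongr
    have t5 : (0 : ℝ) ≤ (j : ℝ) / k * B1 := by positivity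
    have t6 : (0 : ℝ) ≤ (j : ℝ) / k * B2 := by positivity
    have t7 : (1 : ℝ) / 5 * (5 * j * A.ncard - 5 * j * S.ncard) = (j : ℝ) / k * B1 -
        (j : ℝ) / k * B2 := by
      calc (1 : ℝ) / 5 * (5 * j * A.ncard - 5 * j * S.ncard) =
          (j : ℝ) * ((A.ncard : ℝ) - S.ncard) := by ring
        _ = _ := by rw [t1]; ring
    rw [t7]
    have g1 : 216 / 100 * (j : ℝ) / k * B1 = 216 / 100 * ((j : ℝ) / k * B1) := by ring
    have g2 : 2215 / 10000 * (1212 / 100 * (j : ℝ) / k) * B2 / 3 =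
        2215 * 1212 / 3000000 * ((j : ℝ) / k * B2) := by ring
    have g3 : (j : ℝ) / 10 * ((B1 : ℝ) + B2) / k = ((j : ℝ) / k * B1) / 10 +
        ((j : ℝ) / k * B2) / 10 := by ring
    rw [g1] at t2
    rw [g2] at t3
    rw [g3]
    linarith
  calc _ = (c * (Real.exp (-((1 - Real.exp (-(1 / 5))) * E1.card / s)) *
      Real.exp ((Real.exp (1 / 5) - 1) / s * E2.card / 3) *
      Real.exp (-((1 - Real.exp (-(1 / 5))) * X.card / b)))) *
      ((s : ℝ) ^ Fintype.card G * (3 ^ Fintype.card Ξ * (b : ℝ) ^ Fintype.card V)) := by ring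
    _ ≤ _ := mul_le_mul_of_nonneg_right hexp (by positivity)

end Pool.Agent.CG.H53
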